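import Pool.Agent.U36.TS.Stm2

/-!
# Project TSH, package N1: if the exponent of `1 - z` is zero, then those of the `1 - y` are zero
-/

set_option autoImplicit false

namespace Pool.Agent.U36.TS.N1aux

open Pool.Agent.U36.TS

variable {M : Type} [Field M] {l q : ℕ} {th : ℕ → M} {T Ph : M ≃+* M} {U : Set M}

theorem T_pow_th (H : Tame M l q th T Ph U) (n m : ℕ) : (T ^ n) (th m) = th m := by
  induction n with
  | zero => rfl
  | succ n ih => rw [pow_succ, RingAut.mul_apply, H.T_fix, ih]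

theorem th_ne (H : Tame M l q th T Ph U) (m : ℕ) : th m ≠ 0 :=
  (H.prim m).ne_zero (pow_pos H.prime.pos m).ne'

theorem T_pow_act (H : Tame M l q th T Ph U) (n m : ℕ) (e : ℤ) (y : M)
    (h : T y = th m ^ e * y) : (T ^ n) y = th m ^ ((n : ℤ) * e) * y := by
  induction n with
  | zero => simp
  | succ n ih =>
    rw [pow_succ, RingAut.mul_apply, h, map_mul, map_zpow₀, T_pow_th H, ih, ← mul_assoc,
      ← zpow_add₀ (th_ne H m)]
    congr 2
    push_cast
    ring

theorem th_down (H : Tame M l q th T Ph U) (a b : ℕ) : th (a + b) ^ l ^ b = th a := by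
  induction b with
  | zero => simp
  | succ b ih => rw [pow_succ', pow_mul, ← add_assoc, H.comp, ih]

end Pool.Agent.U36.TS.N1aux

namespace Pool.Agent.U36.TS

open N1aux

theorem t_N1 (hEX : S_EX) (hORB : S_ORB) (hKEY : S_KEY) (hPT : S_PT) : S_N1 := by
  intro M _ l q th T Ph U H r m α z y hrm hα hz h1z hTz hPz hy hEz hE1 k
  have hl := H.prime
  have hyU : y ∈ U := H.of_pow y m (by rw [hy]; exact hz)
  obtain ⟨y1, hy1⟩ := H.root y hyU (k + r + 1)
  have hdown : ∀ w : M, w ^ l ^ (k + r + 1) = y → w ^ l ^ (m + k + r + 1) = z := by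
    intro w hw
    rw [show m + k + r + 1 = (k + r + 1) + m by ring, pow_add, pow_mul, hw, hy]
  have hy1z := hdown y1 hy1
  have hy1U : y1 ∈ U := H.of_pow y1 (k + r + 1) (by rw [hy1]; exact hyU)
  have h1y1 : 1 - y1 ∈ U := by
    have := H.one_sub y1 hy1U (m + k + r + 1) (by rw [hy1z]; exact h1z) 0
    simpa using this
  obtain ⟨J, hJ1, hJ2⟩ := hORB M l q th T Ph U H r (m + k + r + 1) (m + k + r + 1)
    (α (m + k + r + 1)) 0 z y1 (by omega) (hα _) hz h1z hTz hy1z (hEz _) (hE1 _)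
  have hsub : m + k + r + 1 - r = m + k + 1 := by omega
  rw [hsub] at hJ1
  have hkey : ∀ i < l ^ r, (l : ℤ) ^ (m + k + 1) ∣ J i ∨
      (l : ℤ) ^ (m + k + 1) ∣ J i - α (m + k + r + 1) := by
    intro i hi
    have hroot : (th (m + k + r + 1) ^ i * y1) ^ l ^ (m + k + r + 1) = z := by
      rw [mul_pow, hy1z, ← pow_mul, mul_comm i, pow_mul, (H.prim _).pow_eq_one, one_pow, one_mul]
    have := hKEY M l q th T Ph U H r (m + k + r + 1) (m + k + r + 1) α (J i) z
      (th (m + k + r + 1) ^ i * y1) (by omega) le_rfl hα hz h1z hTz hPz hroot hEz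
      (by rw [hsub]; exact hJ1 i hi)
    rwa [hsub] at this
  have hk0 : ∀ i < l ^ r, (l : ℤ) ^ (m + k + 1) ∣ J i := by
    classical
    have hNdef : (l : ℤ) ^ (m + k + 1) ∣ (l : ℤ) ^ (m + k + r + 1) := pow_dvd_pow _ (by omega)
    have h7 : l ^ r < l ^ (m + k + 1) := Nat.pow_lt_pow_right hl.one_lt (by omega)
    have hcop : IsCoprime ((l : ℤ) ^ (m + k + 1)) (α (m + k + r + 1)) :=
      IsCoprime.pow_left (((Nat.prime_iff_prime_int.mp hl).coprime_iff_not_dvd).mpr (hα _))
    have hcast : ((l ^ (m + k + 1) : ℕ) : ℤ) = (l : ℤ) ^ (m + k + 1) := by push_cast; rfl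
    generalize (l : ℤ) ^ (m + k + 1) = N at hkey hNdef hcop hcast ⊢
    generalize α (m + k + r + 1) = a at hkey hcop
    have h1 : N ∣ ∑ i ∈ Finset.range (l ^ r), J i := by
      have := hNdef.trans hJ2
      rw [zero_sub, dvd_neg] at this
      exact this
    have h2 : N ∣ ∑ i ∈ Finset.range (l ^ r), (J i - if N ∣ J i then 0 else a) := by
      refine Finset.dvd_sum fun i hi => ?_
      rw [Finset.mem_range] at hi
      split_ifs with c
      · rw [sub_zero]
        exact c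
      · exact (hkey i hi).resolve_left c
    rw [Finset.sum_sub_distrib] at h2
    have h3 : N ∣ ∑ i ∈ Finset.range (l ^ r), (if N ∣ J i then 0 else a) :=
      (dvd_sub_right h1).mp h2
    have h4 : ∑ i ∈ Finset.range (l ^ r), (if N ∣ J i then 0 else a)
        = (((Finset.range (l ^ r)).filter (fun i => ¬ N ∣ J i)).card : ℤ) * a := by
      rw [Finset.sum_ite]
      simp
    rw [h4] at h3
    have h5 := hcop.dvd_of_dvd_mul_right h3
    have h6 : ((Finset.range (l ^ r)).filter (fun i => ¬ N ∣ J i)).card ≤ l ^ r :=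
      (Finset.card_filter_le _ _).trans (by simp)
    have h8 : ((Finset.range (l ^ r)).filter (fun i => ¬ N ∣ J i)).card = 0 := by
      by_contra h0
      have h9 := Nat.le_of_dvd (Nat.pos_of_ne_zero h0)
        (Int.natCast_dvd_natCast.mp (by rw [hcast]; exact h5))
      omega
    intro i hi
    by_contra hc
    have h9 := Finset.card_eq_zero.mp h8
    have h10 : i ∈ (Finset.range (l ^ r)).filter (fun i => ¬ N ∣ J i) :=
      Finset.mem_filter.mpr ⟨Finset.mem_range.mpr hi, hc⟩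
    rw [h9] at h10
    exact absurd h10 (Finset.notMem_empty i)
  have hTy : T y = th m ^ ((l : ℤ) ^ r * α m) * y := hEz m y hy
  have hT'y : (T ^ l ^ (m - r)) y = y := by
    rw [T_pow_act H _ _ _ _ hTy]
    have h1 : ((l ^ (m - r) : ℕ) : ℤ) * ((l : ℤ) ^ r * α m) = ((l ^ m : ℕ) : ℤ) * α m := by
      push_cast
      rw [← mul_assoc, ← pow_add]
      congr 2
      omega
    rw [h1, zpow_mul, zpow_natCast, (H.prim m).pow_eq_one, one_zpow, one_mul]
  have h1y : 1 - y ∈ U := by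
    have := H.one_sub y hyU m (by rw [hy]; exact h1z) 0
    simpa using this
  have H' := hPT M l q th T Ph U H (l ^ (m - r))
  obtain ⟨e1, -, e3, -, -, -⟩ := hEX M l q th T Ph U H (T ^ l ^ (m - r)) (T_pow_th H _)
  obtain ⟨b, hb⟩ := e1 (1 - y) h1y (by rw [map_sub, map_one, hT'y]) k
  have hEy : Ex (T ^ l ^ (m - r)) th l (k + r + 1) y ((l : ℤ) ^ 0 * α (m + k + r + 1)) := by
    intro w hw
    have hTw := hEz (m + k + r + 1) w (hdown w hw)
    rw [T_pow_act H _ _ _ _ hTw]
    congr 1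
    have h1 : th (m + k + r + 1) ^ l ^ m = th (k + r + 1) := by
      rw [show m + k + r + 1 = (k + r + 1) + m by ring]
      exact th_down H _ _
    rw [← h1, ← zpow_natCast, ← zpow_mul]
    congr 1
    push_cast
    rw [← mul_assoc, ← pow_add, pow_zero, one_mul]
    congr 2
    omega
  obtain ⟨J', hJ1', hJ2'⟩ := hORB M l q th (T ^ l ^ (m - r)) Ph U H' 0 (k + r + 1) k
    (α (m + k + r + 1)) b y y1 (Nat.zero_le _) (hα _) hyU h1y hT'y hy1 hEy hb
  have hTT : (T ^ l ^ (m - r)) ^ l ^ (k + r + 1 - 0) = T ^ l ^ (m + k + 1) := by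
    rw [← pow_mul, ← pow_add]
    congr 2
    omega
  have hJ0' := hJ1' 0 (by simp)
  rw [hTT, pow_zero, one_mul] at hJ0'
  have hJ0 := hJ1 0 (pow_pos hl.pos r)
  rw [pow_zero, one_mul] at hJ0
  obtain ⟨-, f2, -, -, -, f6⟩ := hEX M l q th T Ph U H (T ^ l ^ (m + k + 1)) (T_pow_th H _)
  have hJ0k : Ex (T ^ l ^ (m + k + 1)) th l k (1 - y1) (J 0) := by
    apply f6 (1 - y1) h1y1 k (m + r + 1) (J 0)
    rw [show k + (m + r + 1) = m + k + r + 1 by ring]
    exact hJ0
  have hd := f2 (1 - y1) h1y1 k (J' 0) (J 0) hJ0' hJ0k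
  have hd0 : (l : ℤ) ^ k ∣ J 0 := (pow_dvd_pow _ (by omega)).trans (hk0 0 (pow_pos hl.pos r))
  rw [pow_zero, Finset.sum_range_one] at hJ2'
  have hb0 : (l : ℤ) ^ k ∣ b - 0 := by
    have h1 := dvd_add (dvd_add hJ2' hd) hd0
    have h2 : b - J' 0 + (J' 0 - J 0) + J 0 = b - 0 := by ring
    rwa [h2] at h1
  exact e3 (1 - y) h1y k b 0 hb0 hb

end Pool.Agent.U36.TS
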